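import Mathlib

set_option autoImplicit false
set_option linter.unusedSimpArgs false

/-!
# An evilly normal pair whose kernel contains an invertible dicot

Let `* = {0 | 0}`, `B = {0 | 0, *}` and `G = {B | 0, *}`. The set `A` of the games which are (up to order and
repetition of options) sums `k G + m B + j *` and its subset `K` of the sums with `k ≥ 1` form an evilly normal
pair, `G` is in `K`, and `G` is invertible modulo the dicotic games, with the conjugate `{0, * | {0, * | 0}}`
as an inverse.
-/

namespace Pool.Agent.Results.MP_541980_co.KernelWithInvertible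

/-- Short partizan games: a game is given by finitely many Left options `l 0, ..., l (m - 1)` and finitely
many Right options `r 0, ..., r (n - 1)`. -/
inductive Game : Type
  | mk (m n : ℕ) (l : Fin m → Game) (r : Fin n → Game) : Game

namespace Game

/-- the list of the options of the player `s` (`true` is Left, `false` is Right) -/
def opts : Bool → Game → List Game
  | true, mk _ _ l _ => List.ofFn l
  | false, mk _ _ _ r => List.ofFn r

/-- the game with the Left options in the list `L` and the Right options in the list `R` -/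
def game (L R : List Game) : Game := mk L.length R.length L.get R.get

/-- a measure for recursions: larger for a game than for its options -/
def rank : Game → ℕ
  | mk _ _ l r => (Finset.univ.sup fun i => rank (l i)) + (Finset.univ.sup fun j => rank (r j)) + 1

theorem rank_lt {s : Bool} {x y : Game} (h : y ∈ opts s x) : rank y < rank x := by
  cases x with
  | mk m n l r =>
    rw [rank]
    cases s
    · have h' : y ∈ List.ofFn r := h
      rw [List.mem_ofFn] at h'
      obtain ⟨j, rfl⟩ := h'
      have : rank (r j) ≤ Finset.univ.sup fun j => rank (r j) :=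
        Finset.le_sup (f := fun j => rank (r j)) (Finset.mem_univ j)
      omega
    · have h' : y ∈ List.ofFn l := h
      rw [List.mem_ofFn] at h'
      obtain ⟨i, rfl⟩ := h'
      have : rank (l i) ≤ Finset.univ.sup fun i => rank (l i) :=
        Finset.le_sup (f := fun i => rank (l i)) (Finset.mem_univ i)
      omega

theorem opts_game_true (L R : List Game) : opts true (game L R) = L := List.ofFn_get L

theorem opts_game_false (L R : List Game) : opts false (game L R) = R := List.ofFn_get R

/-- The disjunctive sum `x + y`: its options are the `a + y`, `a` an option of `x`, and the `x + b`, `b` an option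
of `y`. -/
def add (x y : Game) : Game :=
  game ((opts true x).attach.map (fun a => add a.1 y) ++ (opts true y).attach.map (fun b => add x b.1))
    ((opts false x).attach.map (fun a => add a.1 y) ++ (opts false y).attach.map (fun b => add x b.1))
termination_by rank x + rank y
decreasing_by
  all_goals first
    | (have := rank_lt a.2; omega)
    | (have := rank_lt b.2; omega)

/-- The player `s` wins `x` when moving first, in misère play (`mis = true`) or in normal play
(`mis = false`): either `s` cannot move and the play is misère, or some move of `s` leads to a game which the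
other player, moving first, does not win. -/
def wins (mis s : Bool) (x : Game) : Prop :=
  (mis = true ∧ opts s x = []) ∨ ∃ y, ∃ _ : y ∈ opts s x, ¬ wins mis (!s) y
termination_by rank x
decreasing_by exact rank_lt (by assumption)

/-- The four outcome classes. -/
inductive Outcome
  | L | R | N | P

open Classical in
/-- The outcome of `x` in misère play (`mis = true`) or in normal play (`mis = false`): `N` if each player wins
moving first, `L` if Left wins whoever moves first, `R` if Right wins whoever moves first, `P` if each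
player loses moving first. -/
noncomputable def outcome (mis : Bool) (x : Game) : Outcome :=
  if wins mis true x then (if wins mis false x then Outcome.N else Outcome.L)
  else (if wins mis false x then Outcome.R else Outcome.P)

/-- Every position of `x` has either no options or options for both players. -/
def Dicotic (x : Game) : Prop :=
  (opts true x = [] ↔ opts false x = []) ∧ ∀ s, ∀ y, ∀ _ : y ∈ opts s x, Dicotic y
termination_by rank x
decreasing_by exact rank_lt (by assumption)

/-- `x` and `y` are the same game up to the order and the repetition of options (in all positions). -/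
def Same (x y : Game) : Prop :=
  ∀ s, (∀ a, ∀ _ : a ∈ opts s x, ∃ b, b ∈ opts s y ∧ Same a b) ∧
    (∀ b, b ∈ opts s y → ∃ a, ∃ _ : a ∈ opts s x, Same a b)
termination_by rank x
decreasing_by all_goals exact rank_lt (by assumption)

/-- `0 = { | }` -/
def zero : Game := game [] []

/-- `* = {0 | 0}` -/
def star : Game := game [zero] [zero]

/-- closed under disjunctive sums and under taking options -/
def Closed (A : Set Game) : Prop :=
  (∀ x ∈ A, ∀ y ∈ A, add x y ∈ A) ∧ ∀ x ∈ A, ∀ s, ∀ y ∈ opts s x, y ∈ A

/-- a set of games which does not distinguish games that differ only in the order and the repetition of options -/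
def Invariant (A : Set Game) : Prop := ∀ x ∈ A, ∀ y, Same x y → y ∈ A

/-- `K` is an evil kernel of `A`. -/
def EvilKernel (A K : Set Game) : Prop :=
  K ⊆ A ∧ (∀ x ∈ K, outcome false x = outcome true x) ∧
    ∀ x ∈ A, x ∉ K → outcome false x = outcome true (add x star) ∧ outcome false (add x star) = outcome true x

/-- The pair `(A, K)` is evilly normal. -/
def EvillyNormal (A K : Set Game) : Prop :=
  (∀ x ∈ A, Dicotic x) ∧ Closed A ∧ EvilKernel A K ∧
    ∀ x ∈ A, ∀ y ∈ A, (add x y ∉ K ↔ x ∉ K ∧ y ∉ K)

/-- `x` is invertible modulo the dicotic games. -/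
def Invertible (x : Game) : Prop :=
  ∃ h, Dicotic h ∧ ∀ X, Dicotic X → outcome true (add (add x h) X) = outcome true (add zero X)

/-- `B = {0 | 0, *}` -/
def gB : Game := game [zero] [zero, star]

/-- `G = {B | 0, *}` -/
def gG : Game := game [gB] [zero, star]

/-! ### Basic lemmas -/

theorem opts_add (s : Bool) (x y : Game) :
    opts s (add x y) = (opts s x).map (fun a => add a y) ++ (opts s y).map (fun b => add x b) := by
  rw [add]
  cases s
  · rw [opts_game_false]
    rw [List.attach_map_val (f := fun a => add a y), List.attach_map_val (f := fun b => add x b)]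
  · rw [opts_game_true]
    rw [List.attach_map_val (f := fun a => add a y), List.attach_map_val (f := fun b => add x b)]

theorem mem_add {s : Bool} {x y z : Game} :
    z ∈ opts s (add x y) ↔ (∃ a ∈ opts s x, z = add a y) ∨ (∃ b ∈ opts s y, z = add x b) := by
  rw [opts_add, List.mem_append, List.mem_map, List.mem_map]
  constructor
  · rintro (⟨a, h, rfl⟩ | ⟨b, h, rfl⟩)
    · exact Or.inl ⟨a, h, rfl⟩
    · exact Or.inr ⟨b, h, rfl⟩
  · rintro (⟨a, h, rfl⟩ | ⟨b, h, rfl⟩)
    · exact Or.inl ⟨a, h, rfl⟩
    · exact Or.inr ⟨b, h, rfl⟩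

theorem ext_opts {x y : Game} (h : ∀ s, opts s x = opts s y) : x = y := by
  cases x with
  | mk m n l r =>
    cases y with
    | mk m' n' l' r' =>
      have h1 : List.ofFn l = List.ofFn l' := h true
      have h2 : List.ofFn r = List.ofFn r' := h false
      rw [List.ofFn_inj'] at h1 h2
      cases h1
      cases h2
      rfl

@[simp] theorem opts_zero (s : Bool) : opts s zero = [] := by
  cases s
  · exact opts_game_false [] []
  · exact opts_game_true [] []

theorem zero_add_game (x : Game) : add zero x = x := by
  have key : ∀ n, ∀ x, rank x < n → add zero x = x := by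
    intro n
    induction n with
    | zero => intro x h; omega
    | succ n ih =>
      intro x hx
      apply ext_opts
      intro s
      rw [opts_add, opts_zero, List.map_nil, List.nil_append]
      conv_rhs => rw [← List.map_id (opts s x)]
      apply List.map_congr_left
      intro b hb
      have := rank_lt hb
      exact ih b (by omega)
  exact key _ x (Nat.lt_succ_self _)

theorem add_zero_game (x : Game) : add x zero = x := by
  have key : ∀ n, ∀ x, rank x < n → add x zero = x := by
    intro n
    induction n with
    | zero => intro x h; omega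
    | succ n ih =>
      intro x hx
      apply ext_opts
      intro s
      rw [opts_add, opts_zero, List.map_nil, List.append_nil]
      conv_rhs => rw [← List.map_id (opts s x)]
      apply List.map_congr_left
      intro b hb
      have := rank_lt hb
      exact ih b (by omega)
  exact key _ x (Nat.lt_succ_self _)

theorem wins_iff (mis s : Bool) (x : Game) :
    wins mis s x ↔ (mis = true ∧ opts s x = []) ∨ ∃ y ∈ opts s x, ¬ wins mis (!s) y := by
  rw [wins]
  constructor
  · rintro (h | ⟨y, h1, h2⟩)
    · exact Or.inl h
    · exact Or.inr ⟨y, h1, h2⟩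
  · rintro (h | ⟨y, h1, h2⟩)
    · exact Or.inl h
    · exact Or.inr ⟨y, h1, h2⟩

theorem dicotic_iff (x : Game) :
    Dicotic x ↔ (opts true x = [] ↔ opts false x = []) ∧ ∀ s, ∀ y ∈ opts s x, Dicotic y := by
  rw [Dicotic]

theorem same_iff (x y : Game) :
    Same x y ↔ ∀ s, (∀ a ∈ opts s x, ∃ b, b ∈ opts s y ∧ Same a b) ∧
      (∀ b, b ∈ opts s y → ∃ a ∈ opts s x, Same a b) := by
  rw [Same]
  constructor
  · intro h s
    refine ⟨(h s).1, fun b hb => ?_⟩
    obtain ⟨a, h1, h2⟩ := (h s).2 b hb
    exact ⟨a, h1, h2⟩
  · intro h s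
    refine ⟨(h s).1, fun b hb => ?_⟩
    obtain ⟨a, h1, h2⟩ := (h s).2 b hb
    exact ⟨a, h1, h2⟩

theorem outcome_eq {m m' : Bool} {x y : Game} (h : ∀ s, wins m s x ↔ wins m' s y) :
    outcome m x = outcome m' y := by
  have h1 := propext (h true)
  have h2 := propext (h false)
  unfold outcome
  rw [h1, h2]

/-! ### The sums `k G + m B + j *` -/

/-- the player `s` can move from `k G + m B + j *` to `k' G + m' B + j' *` -/
def Mv (s : Bool) (k m j k' m' j' : ℕ) : Prop :=
  (k' = k ∧ m' = m ∧ j = j' + 1) ∨ (k' = k ∧ m = m' + 1 ∧ j' = j) ∨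
  (s = false ∧ k' = k ∧ m = m' + 1 ∧ j' = j + 1) ∨ (s = true ∧ k = k' + 1 ∧ m' = m + 1 ∧ j' = j) ∨
  (s = false ∧ k = k' + 1 ∧ m' = m ∧ j' = j) ∨ (s = false ∧ k = k' + 1 ∧ m' = m ∧ j' = j + 1)

theorem Mv_true {k m j k' m' j' : ℕ} : Mv true k m j k' m' j' ↔
    (k' = k ∧ m' = m ∧ j = j' + 1) ∨ (k' = k ∧ m = m' + 1 ∧ j' = j) ∨ (k = k' + 1 ∧ m' = m + 1 ∧ j' = j) := by
  unfold Mv; simp

theorem Mv_false {k m j k' m' j' : ℕ} : Mv false k m j k' m' j' ↔
    (k' = k ∧ m' = m ∧ j = j' + 1) ∨ (k' = k ∧ m = m' + 1 ∧ j' = j) ∨ (k' = k ∧ m = m' + 1 ∧ j' = j + 1) ∨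
    (k = k' + 1 ∧ m' = m ∧ j' = j) ∨ (k = k' + 1 ∧ m' = m ∧ j' = j + 1) := by
  unfold Mv; simp

theorem Mv_right {s : Bool} {k m j k' m' j' : ℕ} (a b c : ℕ) (h : Mv s k m j k' m' j') :
    Mv s (k + a) (m + b) (j + c) (k' + a) (m' + b) (j' + c) := by
  rcases h with h | h | ⟨hs, h⟩ | ⟨hs, h⟩ | ⟨hs, h⟩ | ⟨hs, h⟩
  · exact Or.inl (by omega)
  · exact Or.inr (Or.inl (by omega))
  · exact Or.inr (Or.inr (Or.inl ⟨hs, by omega⟩))
  · exact Or.inr (Or.inr (Or.inr (Or.inl ⟨hs, by omega⟩)))
  · exact Or.inr (Or.inr (Or.inr (Or.inr (Or.inl ⟨hs, by omega⟩))))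
  · exact Or.inr (Or.inr (Or.inr (Or.inr (Or.inr ⟨hs, by omega⟩))))

theorem Mv_left {s : Bool} {k m j k' m' j' : ℕ} (a b c : ℕ) (h : Mv s k m j k' m' j') :
    Mv s (a + k) (b + m) (c + j) (a + k') (b + m') (c + j') := by
  have := Mv_right a b c h
  rwa [Nat.add_comm k a, Nat.add_comm m b, Nat.add_comm j c, Nat.add_comm k' a, Nat.add_comm m' b,
    Nat.add_comm j' c] at this

/-- `x` is `k G + m B + j *`, up to the order and the repetition of options -/
def T (k m j : ℕ) (x : Game) : Prop :=
  ∀ s, (∀ y, ∀ _ : y ∈ opts s x, ∃ k' m' j', Mv s k m j k' m' j' ∧ T k' m' j' y) ∧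
    (∀ k' m' j', Mv s k m j k' m' j' → ∃ y, ∃ _ : y ∈ opts s x, T k' m' j' y)
termination_by rank x
decreasing_by all_goals exact rank_lt (by assumption)

theorem T_iff (k m j : ℕ) (x : Game) :
    T k m j x ↔ ∀ s, (∀ y ∈ opts s x, ∃ k' m' j', Mv s k m j k' m' j' ∧ T k' m' j' y) ∧
      (∀ k' m' j', Mv s k m j k' m' j' → ∃ y ∈ opts s x, T k' m' j' y) := by
  rw [T]
  constructor
  · intro h s
    refine ⟨(h s).1, fun k' m' j' hm => ?_⟩
    obtain ⟨a, h1, h2⟩ := (h s).2 k' m' j' hm
    exact ⟨a, h1, h2⟩
  · intro h s
    refine ⟨(h s).1, fun k' m' j' hm => ?_⟩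
    obtain ⟨a, h1, h2⟩ := (h s).2 k' m' j' hm
    exact ⟨a, h1, h2⟩

theorem T_opt {k m j : ℕ} {x y : Game} {s : Bool} (h : T k m j x) (hy : y ∈ opts s x) :
    ∃ k' m' j', Mv s k m j k' m' j' ∧ T k' m' j' y := ((T_iff _ _ _ _).1 h s).1 y hy

theorem T_mv {k m j k' m' j' : ℕ} {x : Game} {s : Bool} (h : T k m j x) (hm : Mv s k m j k' m' j') :
    ∃ y ∈ opts s x, T k' m' j' y := ((T_iff _ _ _ _).1 h s).2 k' m' j' hm

theorem T_nil {k m j : ℕ} {x : Game} (s : Bool) (h : T k m j x) : opts s x = [] ↔ k + m + j = 0 := by
  constructor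
  · intro hn
    by_contra hne
    have : ∃ k' m' j', Mv s k m j k' m' j' := by
      by_cases h1 : 1 ≤ j
      · exact ⟨k, m, j - 1, by unfold Mv; omega⟩
      · by_cases h2 : 1 ≤ m
        · exact ⟨k, m - 1, j, by unfold Mv; omega⟩
        · cases s
          · exact ⟨k - 1, m, j, by unfold Mv; simp; omega⟩
          · exact ⟨k - 1, m + 1, j, by unfold Mv; simp; omega⟩
    obtain ⟨k', m', j', hm⟩ := this
    obtain ⟨y, hy, _⟩ := T_mv h hm
    rw [hn] at hy
    exact absurd hy List.not_mem_nil
  · intro h0
    rw [List.eq_nil_iff_forall_not_mem]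
    intro y hy
    obtain ⟨k', m', j', hm, _⟩ := T_opt h hy
    unfold Mv at hm
    omega

theorem T_add {k m j k' m' j' : ℕ} : ∀ {x y : Game}, T k m j x → T k' m' j' y →
    T (k + k') (m + m') (j + j') (add x y) := by
  have key : ∀ n, ∀ k m j k' m' j' : ℕ, ∀ x y : Game, rank x + rank y < n → T k m j x →
      T k' m' j' y → T (k + k') (m + m') (j + j') (add x y) := by
    intro n
    induction n with
    | zero => intro k m j k' m' j' x y h; omega
    | succ n ih =>
      intro k m j k' m' j' x y hn hx hy
      rw [T_iff]
      intro s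
      constructor
      · intro z hz
        rcases mem_add.1 hz with ⟨a, ha, rfl⟩ | ⟨b, hb, rfl⟩
        · obtain ⟨k₁, m₁, j₁, h1, h2⟩ := T_opt hx ha
          have := rank_lt ha
          exact ⟨k₁ + k', m₁ + m', j₁ + j', Mv_right _ _ _ h1, ih _ _ _ _ _ _ a y (by omega) h2 hy⟩
        · obtain ⟨k₁, m₁, j₁, h1, h2⟩ := T_opt hy hb
          have := rank_lt hb
          exact ⟨k + k₁, m + m₁, j + j₁, Mv_left _ _ _ h1, ih _ _ _ _ _ _ x b (by omega) hx h2⟩
      · intro u v w hm
        have hsplit : (∃ k₁ m₁ j₁, Mv s k m j k₁ m₁ j₁ ∧ u = k₁ + k' ∧ v = m₁ + m' ∧ w = j₁ + j') ∨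
            (∃ k₁ m₁ j₁, Mv s k' m' j' k₁ m₁ j₁ ∧ u = k + k₁ ∧ v = m + m₁ ∧ w = j + j₁) := by
          unfold Mv at hm ⊢
          rcases hm with hm | hm | ⟨hs, hm⟩ | ⟨hs, hm⟩ | ⟨hs, hm⟩ | ⟨hs, hm⟩
          · by_cases h1 : 1 ≤ j
            · exact Or.inl ⟨k, m, j - 1, Or.inl (by omega), by omega, by omega, by omega⟩
            · exact Or.inr ⟨k', m', j' - 1, Or.inl (by omega), by omega, by omega, by omega⟩
          · by_cases h1 : 1 ≤ m
            · exact Or.inl ⟨k, m - 1, j, Or.inr (Or.inl (by omega)), by omega, by omega, by omega⟩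
            · exact Or.inr ⟨k', m' - 1, j', Or.inr (Or.inl (by omega)), by omega, by omega, by omega⟩
          · by_cases h1 : 1 ≤ m
            · exact Or.inl ⟨k, m - 1, j + 1, Or.inr (Or.inr (Or.inl ⟨hs, by omega⟩)), by omega, by omega, by omega⟩
            · exact Or.inr ⟨k', m' - 1, j' + 1, Or.inr (Or.inr (Or.inl ⟨hs, by omega⟩)), by omega, by omega, by omega⟩
          · by_cases h1 : 1 ≤ k
            · exact Or.inl ⟨k - 1, m + 1, j, Or.inr (Or.inr (Or.inr (Or.inl ⟨hs, by omega⟩))), by omega, by omega, by omega⟩
            · exact Or.inr ⟨k' - 1, m' + 1, j', Or.inr (Or.inr (Or.inr (Or.inl ⟨hs, by omega⟩))), by omega, by omega, by omega⟩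
          · by_cases h1 : 1 ≤ k
            · exact Or.inl ⟨k - 1, m, j, Or.inr (Or.inr (Or.inr (Or.inr (Or.inl ⟨hs, by omega⟩)))), by omega, by omega, by omega⟩
            · exact Or.inr ⟨k' - 1, m', j', Or.inr (Or.inr (Or.inr (Or.inr (Or.inl ⟨hs, by omega⟩)))), by omega, by omega, by omega⟩
          · by_cases h1 : 1 ≤ k
            · exact Or.inl ⟨k - 1, m, j + 1, Or.inr (Or.inr (Or.inr (Or.inr (Or.inr ⟨hs, by omega⟩)))), by omega, by omega, by omega⟩
            · exact Or.inr ⟨k' - 1, m', j' + 1, Or.inr (Or.inr (Or.inr (Or.inr (Or.inr ⟨hs, by omega⟩)))), by omega, by omega, by omega⟩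
        rcases hsplit with ⟨k₁, m₁, j₁, h1, rfl, rfl, rfl⟩ | ⟨k₁, m₁, j₁, h1, rfl, rfl, rfl⟩
        · obtain ⟨a, ha, h2⟩ := T_mv hx h1
          have := rank_lt ha
          exact ⟨add a y, mem_add.2 (Or.inl ⟨a, ha, rfl⟩), ih _ _ _ _ _ _ a y (by omega) h2 hy⟩
        · obtain ⟨b, hb, h2⟩ := T_mv hy h1
          have := rank_lt hb
          exact ⟨add x b, mem_add.2 (Or.inr ⟨b, hb, rfl⟩), ih _ _ _ _ _ _ x b (by omega) hx h2⟩
  intro x y hx hy
  exact key _ k m j k' m' j' x y (Nat.lt_succ_self _) hx hy

theorem T_same {k m j : ℕ} : ∀ {x y : Game}, T k m j x → Same x y → T k m j y := by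
  have key : ∀ n, ∀ k m j : ℕ, ∀ x y : Game, rank x < n → T k m j x → Same x y → T k m j y := by
    intro n
    induction n with
    | zero => intro k m j x y h; omega
    | succ n ih =>
      intro k m j x y hn hx hxy
      rw [same_iff] at hxy
      rw [T_iff]
      intro s
      constructor
      · intro b hb
        obtain ⟨a, ha, hab⟩ := (hxy s).2 b hb
        obtain ⟨k₁, m₁, j₁, h1, h2⟩ := T_opt hx ha
        have := rank_lt ha
        exact ⟨k₁, m₁, j₁, h1, ih _ _ _ a b (by omega) h2 hab⟩
      · intro k₁ m₁ j₁ h1
        obtain ⟨a, ha, h2⟩ := T_mv hx h1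
        obtain ⟨b, hb, hab⟩ := (hxy s).1 a ha
        have := rank_lt ha
        exact ⟨b, hb, ih _ _ _ a b (by omega) h2 hab⟩
  intro x y hx hxy
  exact key _ k m j x y (Nat.lt_succ_self _) hx hxy

theorem T_dicotic {k m j : ℕ} : ∀ {x : Game}, T k m j x → Dicotic x := by
  have key : ∀ n, ∀ k m j : ℕ, ∀ x : Game, rank x < n → T k m j x → Dicotic x := by
    intro n
    induction n with
    | zero => intro k m j x h; omega
    | succ n ih =>
      intro k m j x hn hx
      rw [dicotic_iff]
      refine ⟨by rw [T_nil true hx, T_nil false hx], fun s y hy => ?_⟩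
      obtain ⟨k₁, m₁, j₁, _, h2⟩ := T_opt hx hy
      have := rank_lt hy
      exact ih _ _ _ y (by omega) h2
  intro x hx
  exact key _ k m j x (Nat.lt_succ_self _) hx

/-- the outcomes of all sums -/
theorem T_wins (mis : Bool) {k m j : ℕ} : ∀ {x : Game}, T k m j x →
    ((wins mis true x ↔ k = 0 ∧ ((m = 0 ∧ (j + mis.toNat) % 2 = 1) ∨ (m = 1 ∧ (j + mis.toNat) % 2 = 0))) ∧
     (wins mis false x ↔ ¬ (k = 0 ∧ m = 0 ∧ (j + mis.toNat) % 2 = 0))) := by
  have key : ∀ n, ∀ k m j : ℕ, ∀ x : Game, rank x < n → T k m j x →
    ((wins mis true x ↔ k = 0 ∧ ((m = 0 ∧ (j + mis.toNat) % 2 = 1) ∨ (m = 1 ∧ (j + mis.toNat) % 2 = 0))) ∧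
     (wins mis false x ↔ ¬ (k = 0 ∧ m = 0 ∧ (j + mis.toNat) % 2 = 0))) := by
    intro n
    induction n with
    | zero => intro k m j x h; omega
    | succ n ih =>
      intro k m j x hn hx
      have hmis : mis = true ↔ mis.toNat = 1 := by cases mis <;> simp
      have hmis2 : mis.toNat = 0 ∨ mis.toNat = 1 := by cases mis <;> simp
      have hF : ∀ k' m' j' : ℕ, Mv true k m j k' m' j' → ¬ ¬ (k' = 0 ∧ m' = 0 ∧ (j' + mis.toNat) % 2 = 0) →
          wins mis true x := by
        intro k' m' j' h1 h2
        obtain ⟨y, hy, h3⟩ := T_mv hx h1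
        have := rank_lt hy
        rw [wins_iff]
        refine Or.inr ⟨y, hy, fun hw => h2 ?_⟩
        exact (ih _ _ _ y (by omega) h3).2.1 hw
      have hR : ∀ k' m' j' : ℕ, Mv false k m j k' m' j' →
          ¬ (k' = 0 ∧ ((m' = 0 ∧ (j' + mis.toNat) % 2 = 1) ∨ (m' = 1 ∧ (j' + mis.toNat) % 2 = 0))) →
          wins mis false x := by
        intro k' m' j' h1 h2
        obtain ⟨y, hy, h3⟩ := T_mv hx h1
        have := rank_lt hy
        rw [wins_iff]
        refine Or.inr ⟨y, hy, fun hw => h2 ?_⟩
        exact (ih _ _ _ y (by omega) h3).1.1 hw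
      constructor
      · constructor
        · intro hw
          rw [wins_iff] at hw
          rcases hw with ⟨h1, h2⟩ | ⟨y, hy, h1⟩
          · rw [T_nil true hx] at h2
            rw [hmis] at h1
            omega
          · obtain ⟨k₁, m₁, j₁, h2, h3⟩ := T_opt hx hy
            have := rank_lt hy
            have h4 : ¬ wins mis false y := h1
            rw [(ih _ _ _ y (by omega) h3).2, not_not] at h4
            rw [Mv_true] at h2
            omega
        · rintro ⟨h0, h1⟩
          by_cases hj : 1 ≤ j ∧ m = 0
          · refine hF k m (j - 1) ?_ ?_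
            · unfold Mv; omega
            · omega
          · by_cases hm : m = 1
            · refine hF k 0 j ?_ ?_
              · unfold Mv; omega
              · omega
            · rw [wins_iff]
              refine Or.inl ⟨?_, ?_⟩
              · rw [hmis]; omega
              · rw [T_nil true hx]; omega
      · constructor
        · intro hw hcon
          rw [wins_iff] at hw
          rcases hw with ⟨h1, h2⟩ | ⟨y, hy, h1⟩
          · rw [T_nil false hx] at h2
            rw [hmis] at h1
            omega
          · obtain ⟨k₁, m₁, j₁, h2, h3⟩ := T_opt hx hy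
            have := rank_lt hy
            have h4 : ¬ wins mis true y := h1
            rw [(ih _ _ _ y (by omega) h3).1] at h4
            rw [Mv_false] at h2
            omega
        · intro h
          by_cases hk : 1 ≤ k
          · by_cases hc : (k - 1 = 0 ∧ ((m = 0 ∧ (j + mis.toNat) % 2 = 1) ∨ (m = 1 ∧ (j + mis.toNat) % 2 = 0)))
            · refine hR (k - 1) m (j + 1) ?_ ?_
              · unfold Mv; simp; omega
              · omega
            · refine hR (k - 1) m j ?_ hc
              unfold Mv; simp; omega
          · by_cases hm : 1 ≤ m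
            · by_cases hc : (k = 0 ∧ ((m - 1 = 0 ∧ (j + mis.toNat) % 2 = 1) ∨ (m - 1 = 1 ∧ (j + mis.toNat) % 2 = 0)))
              · refine hR k (m - 1) (j + 1) ?_ ?_
                · unfold Mv; simp; omega
                · omega
              · refine hR k (m - 1) j ?_ hc
                unfold Mv; simp; omega
            · by_cases hj : 1 ≤ j
              · refine hR k m (j - 1) ?_ ?_
                · unfold Mv; simp; omega
                · omega
              · rw [wins_iff]
                refine Or.inl ⟨?_, ?_⟩
                · rw [hmis]; omega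
                · rw [T_nil false hx]; omega
  intro x hx
  exact key _ k m j x (Nat.lt_succ_self _) hx

/-! ### `k` is determined by the game -/

/-- the player `s` can make `n` moves in a row, after which `s` has no move -/
def run (s : Bool) : ℕ → Game → Prop
  | 0, x => opts s x = []
  | n + 1, x => ∃ y ∈ opts s x, run s n y

theorem run_true {n : ℕ} : ∀ {k m j : ℕ} {x : Game}, T k m j x → run true n x → n = 2 * k + m + j := by
  induction n with
  | zero =>
    intro k m j x hx h
    have h' : opts true x = [] := h
    rw [T_nil true hx] at h'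
    omega
  | succ n ih =>
    intro k m j x hx h
    obtain ⟨y, hy, h1⟩ := h
    obtain ⟨k₁, m₁, j₁, h2, h3⟩ := T_opt hx hy
    have h4 := ih h3 h1
    rw [Mv_true] at h2
    omega

theorem run_true' {n : ℕ} : ∀ {k m j : ℕ} {x : Game}, T k m j x → n = 2 * k + m + j → run true n x := by
  induction n with
  | zero =>
    intro k m j x hx h
    change opts true x = []
    rw [T_nil true hx]
    omega
  | succ n ih =>
    intro k m j x hx h
    have : ∃ k' m' j', Mv true k m j k' m' j' := by
      by_cases h1 : 1 ≤ j
      · exact ⟨k, m, j - 1, by rw [Mv_true]; omega⟩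
      · by_cases h2 : 1 ≤ m
        · exact ⟨k, m - 1, j, by rw [Mv_true]; omega⟩
        · exact ⟨k - 1, m + 1, j, by rw [Mv_true]; omega⟩
    obtain ⟨k₁, m₁, j₁, h2⟩ := this
    obtain ⟨y, hy, h3⟩ := T_mv hx h2
    refine ⟨y, hy, ih h3 ?_⟩
    rw [Mv_true] at h2
    omega

theorem run_false {n : ℕ} : ∀ {k m j : ℕ} {x : Game}, T k m j x → run false n x → k + m + j ≤ n := by
  induction n with
  | zero =>
    intro k m j x hx h
    have h' : opts false x = [] := h
    rw [T_nil false hx] at h'
    omega
  | succ n ih =>
    intro k m j x hx h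
    obtain ⟨y, hy, h1⟩ := h
    obtain ⟨k₁, m₁, j₁, h2, h3⟩ := T_opt hx hy
    have h4 := ih h3 h1
    rw [Mv_false] at h2
    omega

theorem run_false' {n : ℕ} : ∀ {k m j : ℕ} {x : Game}, T k m j x → n = k + m + j → run false n x := by
  induction n with
  | zero =>
    intro k m j x hx h
    change opts false x = []
    rw [T_nil false hx]
    omega
  | succ n ih =>
    intro k m j x hx h
    have : ∃ k' m' j', Mv false k m j k' m' j' ∧ n = k' + m' + j' := by
      by_cases h1 : 1 ≤ j
      · exact ⟨k, m, j - 1, by rw [Mv_false]; omega, by omega⟩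
      · by_cases h2 : 1 ≤ m
        · exact ⟨k, m - 1, j, by rw [Mv_false]; omega, by omega⟩
        · exact ⟨k - 1, m, j, by rw [Mv_false]; omega, by omega⟩
    obtain ⟨k₁, m₁, j₁, h2, h4⟩ := this
    obtain ⟨y, hy, h3⟩ := T_mv hx h2
    exact ⟨y, hy, ih h3 h4⟩

theorem T_unique {k m j k' m' j' : ℕ} {x : Game} (h : T k m j x) (h' : T k' m' j' x) : k = k' := by
  have h1 := run_true h (run_true' h' rfl)
  have h2 := run_false h (run_false' h' rfl)
  have h3 := run_false h' (run_false' h rfl)
  omega

/-! ### The pair `(A, K)` -/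

/-- the sums `k G + m B + j *` -/
def setA : Set Game := {x | ∃ k m j, T k m j x}

/-- the sums `k G + m B + j *` with `k ≥ 1` -/
def setK : Set Game := {x | ∃ k m j, T (k + 1) m j x}

theorem T_zero : T 0 0 0 zero := by
  rw [T_iff]
  intro s
  refine ⟨fun y hy => ?_, fun k' m' j' h => ?_⟩
  · rw [opts_zero] at hy
    exact absurd hy List.not_mem_nil
  · unfold Mv at h
    omega

theorem T_star : T 0 0 1 star := by
  rw [T_iff]
  intro s
  cases s
  · refine ⟨fun y hy => ⟨0, 0, 0, by rw [Mv_false]; omega, ?_⟩, fun k' m' j' h => ⟨zero, ?_, ?_⟩⟩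
    · have : y = zero := by simpa [star, opts_game_true, opts_game_false] using hy
      rw [this]; exact T_zero
    · simp [star, opts_game_true, opts_game_false]
    · rw [Mv_false] at h
      have : k' = 0 ∧ m' = 0 ∧ j' = 0 := by omega
      obtain ⟨rfl, rfl, rfl⟩ := this
      exact T_zero
  · refine ⟨fun y hy => ⟨0, 0, 0, by rw [Mv_true]; omega, ?_⟩, fun k' m' j' h => ⟨zero, ?_, ?_⟩⟩
    · have : y = zero := by simpa [star, opts_game_true, opts_game_false] using hy
      rw [this]; exact T_zero
    · simp [star, opts_game_true, opts_game_false]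
    · rw [Mv_true] at h
      have : k' = 0 ∧ m' = 0 ∧ j' = 0 := by omega
      obtain ⟨rfl, rfl, rfl⟩ := this
      exact T_zero

theorem T_B : T 0 1 0 gB := by
  rw [T_iff]
  intro s
  cases s
  · refine ⟨fun y hy => ?_, fun k' m' j' h => ?_⟩
    · have : y = zero ∨ y = star := by simpa [gB, opts_game_true, opts_game_false] using hy
      rcases this with rfl | rfl
      · exact ⟨0, 0, 0, by rw [Mv_false]; omega, T_zero⟩
      · exact ⟨0, 0, 1, by rw [Mv_false]; omega, T_star⟩
    · rw [Mv_false] at h
      have : (k' = 0 ∧ m' = 0 ∧ j' = 0) ∨ (k' = 0 ∧ m' = 0 ∧ j' = 1) := by omega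
      rcases this with ⟨rfl, rfl, rfl⟩ | ⟨rfl, rfl, rfl⟩
      · exact ⟨zero, by simp [gB, opts_game_true, opts_game_false], T_zero⟩
      · exact ⟨star, by simp [gB, opts_game_true, opts_game_false], T_star⟩
  · refine ⟨fun y hy => ?_, fun k' m' j' h => ?_⟩
    · have : y = zero := by simpa [gB, opts_game_true, opts_game_false] using hy
      rw [this]
      exact ⟨0, 0, 0, by rw [Mv_true]; omega, T_zero⟩
    · rw [Mv_true] at h
      have : k' = 0 ∧ m' = 0 ∧ j' = 0 := by omega
      obtain ⟨rfl, rfl, rfl⟩ := this
      exact ⟨zero, by simp [gB, opts_game_true, opts_game_false], T_zero⟩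

theorem T_G : T 1 0 0 gG := by
  rw [T_iff]
  intro s
  cases s
  · refine ⟨fun y hy => ?_, fun k' m' j' h => ?_⟩
    · have : y = zero ∨ y = star := by simpa [gG, opts_game_true, opts_game_false] using hy
      rcases this with rfl | rfl
      · exact ⟨0, 0, 0, by rw [Mv_false]; omega, T_zero⟩
      · exact ⟨0, 0, 1, by rw [Mv_false]; omega, T_star⟩
    · rw [Mv_false] at h
      have : (k' = 0 ∧ m' = 0 ∧ j' = 0) ∨ (k' = 0 ∧ m' = 0 ∧ j' = 1) := by omega
      rcases this with ⟨rfl, rfl, rfl⟩ | ⟨rfl, rfl, rfl⟩
      · exact ⟨zero, by simp [gG, opts_game_true, opts_game_false], T_zero⟩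
      · exact ⟨star, by simp [gG, opts_game_true, opts_game_false], T_star⟩
  · refine ⟨fun y hy => ?_, fun k' m' j' h => ?_⟩
    · have : y = gB := by simpa [gG, opts_game_true, opts_game_false] using hy
      rw [this]
      exact ⟨0, 1, 0, by rw [Mv_true]; omega, T_B⟩
    · rw [Mv_true] at h
      have : k' = 0 ∧ m' = 1 ∧ j' = 0 := by omega
      obtain ⟨rfl, rfl, rfl⟩ := this
      exact ⟨gB, by simp [gG, opts_game_true, opts_game_false], T_B⟩

theorem mem_K_iff {k m j : ℕ} {x : Game} (h : T k m j x) : x ∈ setK ↔ 1 ≤ k := by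
  constructor
  · rintro ⟨k', m', j', h'⟩
    have := T_unique h h'
    omega
  · intro hk
    refine ⟨k - 1, m, j, ?_⟩
    rwa [Nat.sub_add_cancel hk]

theorem evillyNormal : EvillyNormal setA setK := by
  refine ⟨?_, ⟨?_, ?_⟩, ⟨?_, ?_, ?_⟩, ?_⟩
  · rintro x ⟨k, m, j, hx⟩
    exact T_dicotic hx
  · rintro x ⟨k, m, j, hx⟩ y ⟨k', m', j', hy⟩
    exact ⟨_, _, _, T_add hx hy⟩
  · rintro x ⟨k, m, j, hx⟩ s y hy
    obtain ⟨k', m', j', _, h⟩ := T_opt hx hy
    exact ⟨k', m', j', h⟩
  · rintro x ⟨k, m, j, hx⟩
    exact ⟨_, _, _, hx⟩
  · rintro x ⟨k, m, j, hx⟩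
    apply outcome_eq
    intro s
    cases s
    · rw [(T_wins false hx).2, (T_wins true hx).2]
      omega
    · rw [(T_wins false hx).1, (T_wins true hx).1]
      omega
  · rintro x ⟨k, m, j, hx⟩ hK
    rw [mem_K_iff hx] at hK
    have hx' := T_add hx T_star
    constructor
    · apply outcome_eq
      intro s
      cases s
      · rw [(T_wins false hx).2, (T_wins true hx').2]
        simp only [Bool.toNat_false, Bool.toNat_true]
        omega
      · rw [(T_wins false hx).1, (T_wins true hx').1]
        simp only [Bool.toNat_false, Bool.toNat_true]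
        omega
    · apply outcome_eq
      intro s
      cases s
      · rw [(T_wins false hx').2, (T_wins true hx).2]
        simp only [Bool.toNat_false, Bool.toNat_true]
        omega
      · rw [(T_wins false hx').1, (T_wins true hx).1]
        simp only [Bool.toNat_false, Bool.toNat_true]
        omega
  · rintro x ⟨k, m, j, hx⟩ y ⟨k', m', j', hy⟩
    rw [mem_K_iff hx, mem_K_iff hy, mem_K_iff (T_add hx hy)]
    omega

theorem invariant_A : Invariant setA := by
  rintro x ⟨k, m, j, hx⟩ y hxy
  exact ⟨k, m, j, T_same hx hxy⟩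

theorem invariant_K : Invariant setK := by
  rintro x ⟨k, m, j, hx⟩ y hxy
  exact ⟨k, m, j, T_same hx hxy⟩

/-! ### `G` is invertible -/

/-- `S` can be added to every dicotic game without changing the misère outcome. -/
def E (S : Game) : Prop := ∀ X, Dicotic X → ∀ s, (wins true s (add S X) ↔ wins true s X)

theorem E_zero : E zero := by
  intro X _ s
  rw [zero_add_game]

theorem E_of {S : Game} (h0 : ∀ s, wins true s S)
    (h : ∀ s, ∀ S' ∈ opts s S, ∃ S'' ∈ opts (!s) S', E S'') : E S := by
  have key : ∀ n, ∀ X, rank X < n → Dicotic X → ∀ s, (wins true s (add S X) ↔ wins true s X) := by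
    intro n
    induction n with
    | zero => intro X h; omega
    | succ n ih =>
      intro X hn hX s
      rw [dicotic_iff] at hX
      by_cases hnil : opts s X = []
      · have hzero : X = zero := by
          apply ext_opts
          intro t
          rw [opts_zero]
          cases s <;> cases t
          · exact hnil
          · exact hX.1.2 hnil
          · exact hX.1.1 hnil
          · exact hnil
        rw [hzero, add_zero_game]
        constructor
        · intro _
          rw [wins_iff]
          exact Or.inl ⟨rfl, opts_zero s⟩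
        · intro _
          exact h0 s
      · constructor
        · intro hw
          by_contra hX'
          rw [wins_iff] at hw
          rcases hw with ⟨_, h1⟩ | ⟨z, hz, h1⟩
          · rw [opts_add] at h1
            exact hnil (List.map_eq_nil_iff.1 (List.append_eq_nil_iff.1 h1).2)
          · rcases mem_add.1 hz with ⟨S', hS', rfl⟩ | ⟨Y, hY, rfl⟩
            · obtain ⟨S'', hS'', hE⟩ := h s S' hS'
              apply h1
              rw [wins_iff]
              refine Or.inr ⟨add S'' X, mem_add.2 (Or.inl ⟨S'', hS'', rfl⟩), ?_⟩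
              rw [Bool.not_not, hE X (by rw [dicotic_iff]; exact hX) s]
              exact hX'
            · have := rank_lt hY
              rw [ih Y (by omega) (hX.2 s Y hY)] at h1
              apply hX'
              rw [wins_iff]
              exact Or.inr ⟨Y, hY, h1⟩
        · intro hw
          rw [wins_iff] at hw ⊢
          rcases hw with ⟨_, h1⟩ | ⟨Y, hY, h1⟩
          · exact absurd h1 hnil
          · have := rank_lt hY
            refine Or.inr ⟨add S Y, mem_add.2 (Or.inr ⟨Y, hY, rfl⟩), ?_⟩
            rw [ih Y (by omega) (hX.2 s Y hY)]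
            exact h1
  intro X hX s
  exact key _ X (Nat.lt_succ_self _) hX s

/-- the conjugate of `B` -/
def cB : Game := game [zero, star] [zero]

/-- the conjugate of `G` -/
def cG : Game := game [zero, star] [cB]

theorem w_zero (s : Bool) : wins true s zero := by
  rw [wins_iff]; exact Or.inl ⟨rfl, opts_zero s⟩

theorem not_w {s : Bool} {x : Game} (h1 : opts s x ≠ []) (h2 : ∀ y ∈ opts s x, wins true (!s) y) :
    ¬ wins true s x := by
  rw [wins_iff]
  rintro (⟨_, h⟩ | ⟨y, hy, h⟩)
  · exact h1 h
  · exact h (h2 y hy)

theorem w_of {s : Bool} {x : Game} (y : Game) (hy : y ∈ opts s x) (h : ¬ wins true (!s) y) : wins true s x := by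
  rw [wins_iff]; exact Or.inr ⟨y, hy, h⟩

theorem not_w_star (s : Bool) : ¬ wins true s star := by
  apply not_w
  · cases s <;> simp [star, opts_game_true, opts_game_false]
  · intro y hy
    have : y = zero := by cases s <;> simpa [star, opts_game_true, opts_game_false] using hy
    rw [this]; exact w_zero _

theorem mem_zero_star (s : Bool) : zero ∈ opts s star := by cases s <;> simp [star, opts_game_true, opts_game_false]

theorem E_star : E (add star star) := by
  apply E_of
  · intro s
    refine w_of star ?_ (not_w_star _)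
    rw [mem_add]
    exact Or.inl ⟨zero, mem_zero_star s, (zero_add_game star).symm⟩
  · intro s S' hS'
    rcases mem_add.1 hS' with ⟨a, ha, rfl⟩ | ⟨b, hb, rfl⟩
    · have : a = zero := by cases s <;> simpa [star, opts_game_true, opts_game_false] using ha
      subst this
      exact ⟨zero, by rw [zero_add_game]; exact mem_zero_star _, E_zero⟩
    · have : b = zero := by cases s <;> simpa [star, opts_game_true, opts_game_false] using hb
      subst this
      exact ⟨zero, by rw [add_zero_game]; exact mem_zero_star _, E_zero⟩

theorem zB (s : Bool) : zero ∈ opts s gB := by cases s <;> simp [gB, opts_game_true, opts_game_false]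
theorem zcB (s : Bool) : zero ∈ opts s cB := by cases s <;> simp [cB, opts_game_true, opts_game_false]

theorem w_BB (s : Bool) : wins true s (add gB cB) := by
  cases s
  · refine w_of gB ?_ ?_
    · rw [mem_add]; exact Or.inr ⟨zero, zcB _, (add_zero_game gB).symm⟩
    · apply not_w
      · simp [gB, opts_game_true, opts_game_false]
      · intro y hy
        have : y = zero := by simpa [gB, opts_game_true, opts_game_false] using hy
        rw [this]; exact w_zero _
  · refine w_of cB ?_ ?_
    · rw [mem_add]; exact Or.inl ⟨zero, zB _, (zero_add_game cB).symm⟩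
    · apply not_w
      · simp [cB, opts_game_true, opts_game_false]
      · intro y hy
        have : y = zero := by simpa [cB, opts_game_true, opts_game_false] using hy
        rw [this]; exact w_zero _

theorem E_BB : E (add gB cB) := by
  apply E_of w_BB
  intro s S' hS'
  cases s
  · rcases mem_add.1 hS' with ⟨a, ha, rfl⟩ | ⟨b, hb, rfl⟩
    · have : a = zero ∨ a = star := by simpa [gB, opts_game_true, opts_game_false] using ha
      rcases this with rfl | rfl
      · exact ⟨zero, by rw [zero_add_game]; exact zcB _, E_zero⟩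
      · exact ⟨add star star, mem_add.2 (Or.inr ⟨star, by simp [cB, opts_game_true, opts_game_false], rfl⟩), E_star⟩
    · have : b = zero := by simpa [cB, opts_game_true, opts_game_false] using hb
      subst this
      exact ⟨zero, by rw [add_zero_game]; exact zB _, E_zero⟩
  · rcases mem_add.1 hS' with ⟨a, ha, rfl⟩ | ⟨b, hb, rfl⟩
    · have : a = zero := by simpa [gB, opts_game_true, opts_game_false] using ha
      subst this
      exact ⟨zero, by rw [zero_add_game]; exact zcB _, E_zero⟩
    · have : b = zero ∨ b = star := by simpa [cB, opts_game_true, opts_game_false] using hb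
      rcases this with rfl | rfl
      · exact ⟨zero, by rw [add_zero_game]; exact zB _, E_zero⟩
      · exact ⟨add star star, mem_add.2 (Or.inl ⟨star, by simp [gB, opts_game_true, opts_game_false], rfl⟩), E_star⟩

theorem w_GG (s : Bool) : wins true s (add gG cG) := by
  cases s
  · refine w_of (add gG cB) ?_ ?_
    · rw [mem_add]; exact Or.inr ⟨cB, by simp [cG, opts_game_true, opts_game_false], rfl⟩
    · apply not_w
      · rw [opts_add]; simp [gG, opts_game_true, opts_game_false]
      · intro y hy
        rcases mem_add.1 hy with ⟨a, ha, rfl⟩ | ⟨b, hb, rfl⟩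
        · have : a = gB := by simpa [gG, opts_game_true, opts_game_false] using ha
          subst this
          exact w_BB _
        · have : b = zero ∨ b = star := by simpa [cB, opts_game_true, opts_game_false] using hb
          rcases this with rfl | rfl
          · rw [add_zero_game]
            exact w_of star (by simp [gG, opts_game_true, opts_game_false]) (not_w_star _)
          · exact w_of star (mem_add.2 (Or.inl ⟨zero, by simp [gG, opts_game_true, opts_game_false], (zero_add_game star).symm⟩))
              (not_w_star _)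
  · refine w_of (add gB cG) ?_ ?_
    · rw [mem_add]; exact Or.inl ⟨gB, by simp [gG, opts_game_true, opts_game_false], rfl⟩
    · apply not_w
      · rw [opts_add]; simp [cG, opts_game_true, opts_game_false]
      · intro y hy
        rcases mem_add.1 hy with ⟨a, ha, rfl⟩ | ⟨b, hb, rfl⟩
        · have : a = zero ∨ a = star := by simpa [gB, opts_game_true, opts_game_false] using ha
          rcases this with rfl | rfl
          · rw [zero_add_game]
            exact w_of star (by simp [cG, opts_game_true, opts_game_false]) (not_w_star _)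
          · exact w_of star (mem_add.2 (Or.inr ⟨zero, by simp [cG, opts_game_true, opts_game_false], (add_zero_game star).symm⟩))
              (not_w_star _)
        · have : b = cB := by simpa [cG, opts_game_true, opts_game_false] using hb
          subst this
          exact w_BB _

theorem E_GG : E (add gG cG) := by
  apply E_of w_GG
  intro s S' hS'
  cases s
  · rcases mem_add.1 hS' with ⟨a, ha, rfl⟩ | ⟨b, hb, rfl⟩
    · have : a = zero ∨ a = star := by simpa [gG, opts_game_true, opts_game_false] using ha
      rcases this with rfl | rfl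
      · exact ⟨zero, by rw [zero_add_game]; simp [cG, opts_game_true, opts_game_false], E_zero⟩
      · exact ⟨add star star, mem_add.2 (Or.inr ⟨star, by simp [cG, opts_game_true, opts_game_false], rfl⟩), E_star⟩
    · have : b = cB := by simpa [cG, opts_game_true, opts_game_false] using hb
      subst this
      exact ⟨add gB cB, mem_add.2 (Or.inl ⟨gB, by simp [gG, opts_game_true, opts_game_false], rfl⟩), E_BB⟩
  · rcases mem_add.1 hS' with ⟨a, ha, rfl⟩ | ⟨b, hb, rfl⟩
    · have : a = gB := by simpa [gG, opts_game_true, opts_game_false] using ha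
      subst this
      exact ⟨add gB cB, mem_add.2 (Or.inr ⟨cB, by simp [cG, opts_game_true, opts_game_false], rfl⟩), E_BB⟩
    · have : b = zero ∨ b = star := by simpa [cG, opts_game_true, opts_game_false] using hb
      rcases this with rfl | rfl
      · exact ⟨zero, by rw [add_zero_game]; simp [gG, opts_game_true, opts_game_false], E_zero⟩
      · exact ⟨add star star, mem_add.2 (Or.inl ⟨star, by simp [gG, opts_game_true, opts_game_false], rfl⟩), E_star⟩

theorem dicotic_zero : Dicotic zero := T_dicotic T_zero
theorem dicotic_star : Dicotic star := T_dicotic T_star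

theorem dicotic_cB : Dicotic cB := by
  rw [dicotic_iff]
  refine ⟨by simp [cB, opts_game_true, opts_game_false], fun s y hy => ?_⟩
  have : y = zero ∨ y = star := by
    cases s
    · left; simpa [cB, opts_game_true, opts_game_false] using hy
    · simpa [cB, opts_game_true, opts_game_false] using hy
  rcases this with rfl | rfl
  · exact dicotic_zero
  · exact dicotic_star

theorem dicotic_cG : Dicotic cG := by
  rw [dicotic_iff]
  refine ⟨by simp [cG, opts_game_true, opts_game_false], fun s y hy => ?_⟩
  cases s
  · have : y = cB := by simpa [cG, opts_game_true, opts_game_false] using hy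
    rw [this]; exact dicotic_cB
  · have : y = zero ∨ y = star := by simpa [cG, opts_game_true, opts_game_false] using hy
    rcases this with rfl | rfl
    · exact dicotic_zero
    · exact dicotic_star

theorem invertible_G : Invertible gG :=
  ⟨cG, dicotic_cG, fun X hX => outcome_eq fun s => by rw [zero_add_game]; exact E_GG X hX s⟩

end Game

open Game

/-- There is an evilly normal pair `(A, K)` such that `G = {B | 0, *}`, `B = {0 | 0, *}`, is in the kernel `K` and
`G` is invertible modulo the dicotic games. Moreover `A` and `K` do not distinguish games which are the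
same up to the order and the repetition of options. -/
theorem result : ∃ A K : Set Game, Invariant A ∧ Invariant K ∧ EvillyNormal A K ∧
    gG ∈ K ∧ Invertible gG :=
  ⟨setA, setK, invariant_A, invariant_K, evillyNormal, ⟨0, 0, 0, T_G⟩, invertible_G⟩

end Pool.Agent.Results.MP_541980_co.KernelWithInvertible
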